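import Pool.Agent.Helper5.BG.Two

/-!
Project BG (MP_4a5e7e_lc): existence of a plan.
-/

namespace Pool.Agent.Helper5.BG

open Pool.Agent.Helper21.BX

/-- Existence of a plan. -/
theorem exists_plan (k : ℕ) (hk : 4 ≤ k) : ∃ n₀ : ℕ, ∀ (M : Mac) (n τ a : ℕ) (low : S → Bool),
    n₀ ≤ n → n ^ 2 ≤ τ → (∀ q, (M.qs q).length = k) →
    (∀ u : S, u.length = n ^ 2 → ∀ q ∈ M.qs (fre u), lev q ≤ τ ∧ ∀ q' ∈ M.qs q, lev q' ≤ τ) →
    ∃ w : S, w.length = WW k n ∧
      (val M k n τ a false (fun _ => false) w = true ∨ val M k n τ a true low w = true) := by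
  classical
  obtain ⟨n₀, hn₀⟩ := exists_class k
  refine ⟨n₀, fun M n τ a low hn hτ hq hlev => ?_⟩
  by_contra hno
  have hno' : ¬ HasPlan M k n τ a low := hno
  have hd : ∀ u : S, ∃ (b : Bool) (t c : S) (r : Bool), u.length = n ^ 2 →
      (b = false ∧ t = fre u ∧ r = true ∧ ∀ d, ¬ Full k n τ M t d) ∨
      (b = true ∧ t = sh (k - 2) c ∧ Cond k n τ a M u c r ∧ ∀ d, ¬ Full k n τ M t d) := by
    intro u
    by_cases hu : u.length = n ^ 2
    · rcases dich hk hτ hq hu (hlev u hu) hno' with h | ⟨c, r, h1, h2⟩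
      · exact ⟨false, fre u, [], true, fun _ => Or.inl ⟨rfl, rfl, rfl, h⟩⟩
      · exact ⟨true, sh (k - 2) c, c, r, fun _ => Or.inr ⟨rfl, rfl, h1, h2⟩⟩
    · exact ⟨false, [], [], false, fun h => absurd h hu⟩
  choose b t c r hb using hd
  obtain ⟨G, hGc, hGl, s, hs⟩ := hn₀ n hn
    (fun u => (b u, tf k M (t u), fun j => cls k n τ M (t u) (fre u) (!r u)
      ((M.qs (t u)).getD j []))) (fun u _ j q h => cls_low h)
  obtain ⟨u, hu, u', hu', hne, h1, h2, h3⟩ := exists_pair (k := k) (by omega) (InI n τ) G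
    (fun u => Es M (t u)) (fun u _ => Es_card (hq _)) (fun u hu d hd => by
      by_contra h
      push Not at h
      have hF : Full k n τ M (t u) d := ⟨hd, h⟩
      rcases hb u (hGl u hu) with h4 | h4
      · exact h4.2.2.2 d hF
      · exact h4.2.2.2 d hF) hGc
  have e := (hs u hu).trans (hs u' hu').symm
  rw [Prod.mk.injEq, Prod.mk.injEq] at e
  obtain ⟨e1, e2, e3⟩ := e
  have lu := hGl u hu
  have lu' := hGl u' hu'
  rcases hb u lu with ⟨g1, g2, g3, -⟩ | ⟨g1, g2, g3, -⟩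
  · rcases hb u' lu' with ⟨g1', g2', g3', -⟩ | ⟨g1', g2', g3', -⟩
    · rw [g2, g2'] at e2
      rw [g2, g2', g3, g3'] at e3
      rw [g2] at h1
      simp only [g2, g2'] at h3
      exact hno' (plan_B1 hk hτ hq hlev lu lu' hne e2 (fun j => congrFun e3 j) h1 h3)
    · rw [g1, g1'] at e1
      exact absurd e1 (by simp)
  · rcases hb u' lu' with ⟨g1', g2', g3', -⟩ | ⟨g1', g2', g3', -⟩
    · rw [g1, g1'] at e1
      exact absurd e1 (by simp)
    · by_cases hcc : c u = c u'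
      · rw [← hcc] at g3'
        exact hno' (plan_B2a hk hτ hq lu lu' hne g3 g3')
      · rw [g2, g2'] at e2
        rw [g2, g2'] at e3
        rw [g2] at h1
        rw [g2'] at h2
        simp only [g2, g2'] at h3
        exact hno' (plan_B2b hk hτ hq hlev lu lu' hne g3 g3' hcc e2 (fun j => congrFun e3 j)
          h1 h2 h3)

end Pool.Agent.Helper5.BG
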