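import Pool.Agent.Helper21.BX.Vs

/-!
Project BG (MP_4a5e7e_lc): existence of plans, basic facts.
-/

namespace Pool.Agent.Helper5.BG

open Pool.Agent.Helper21.BX

/-- `ev` with a predicate in place of a list. -/
def evQ (k n τ a : ℕ) (mode : Bool) (low : S → Bool) (key : S) (b : Bool) (P : S → Bool)
    (X : S → Bool) (q : S) : Bool :=
  if isCod k q then
    (if inI n τ q then
      (if isMsk q then b && decide (lev q = n)
      else if isFre q then P q
      else P q || (X (atm k n τ q) && (decide (idx q + 2 < k) || !b)))
    else if lev q < n then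
      (if mode then
        (if lev q < a then low q else isSh k q && decide (idx q = 0) && X q)
      else decide (q = key) || X q)
    else X q)
  else false

theorem ev_eq_evQ {k n τ a : ℕ} {mode : Bool} {low : S → Bool} {key : S} {b : Bool} {L : List S}
    {P : S → Bool} {X : S → Bool} {q : S} (h : q ∈ L ↔ P q = true) :
    ev k n τ a mode low key b L X q = evQ k n τ a mode low key b P X q := by
  have h1 : decide (q ∈ L) = P q := by
    by_cases hq : q ∈ L
    · rw [decide_eq_true hq, h.1 hq]
    · rw [decide_eq_false hq]
      cases hP : P q with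
      | false => rfl
      | true => exact absurd (h.2 hP) hq
  unfold ev evQ
  rw [h1]

/-- The answer of the machine at `t`. -/
def resp (M : Mac) (e : S → Bool) (t : S) : Bool :=
  tbl (M.tab t) ((M.qs t).map (fun q => (M.side q != M.side t) && e q))

theorem vio_iff {M : Mac} {e : S → Bool} {t : S} : vio M e t = true ↔ e t ≠ resp M e t := by
  unfold vio resp
  rw [bne_iff_ne]

/-- The queries on the other side. -/
def Es (M : Mac) (t : S) : Finset S :=
  ((M.qs t).filter (fun q => M.side q != M.side t)).toFinset

theorem mem_Es {M : Mac} {t q : S} : q ∈ Es M t ↔ q ∈ M.qs t ∧ M.side q ≠ M.side t := by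
  unfold Es
  rw [List.mem_toFinset, List.mem_filter, bne_iff_ne]

theorem Es_card {M : Mac} {t : S} {k : ℕ} (h : (M.qs t).length = k) : (Es M t).card ≤ k := by
  unfold Es
  refine (List.toFinset_card_le _).trans ?_
  rw [← h]
  exact List.length_filter_le _ _

theorem resp_congr {M : Mac} {e e' : S → Bool} {t : S} (h : ∀ q ∈ Es M t, e q = e' q) :
    resp M e t = resp M e' t := by
  unfold resp
  congr 1
  refine List.map_congr_left fun q hq => ?_
  by_cases hs : M.side q = M.side t
  · simp [hs]
  · rw [h q (mem_Es.2 ⟨hq, hs⟩)]

/-- The level of `c` is in the attack interval. -/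
def InI (n τ : ℕ) (c : S) : Prop := n ≤ c.length ∧ c.length ≤ τ

/-- All the shares of `c` are asked on the other side. -/
def Full (k n τ : ℕ) (M : Mac) (t c : S) : Prop := InI n τ c ∧ ∀ i < k - 1, sh i c ∈ Es M t

theorem sh_inj {i j : ℕ} {c d : S} (h : sh i c = sh j d) : i = j ∧ c = d := by
  have h1 := congrArg idx h
  have h2 := congrArg rest h
  rw [idx_sh, idx_sh] at h1
  rw [rest_sh, rest_sh] at h2
  exact ⟨h1, h2⟩

theorem fre_inj {u v : S} (h : fre u = fre v) : u = v := by
  unfold fre at h
  simpa using h

theorem sh_ne_fre {i : ℕ} {c u : S} : sh i c ≠ fre u := by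
  simp [sh, fre, List.replicate_succ]

theorem sh_ne_msk {i l : ℕ} {c : S} : sh i c ≠ msk l := by
  simp [sh, msk, List.replicate_succ]

theorem fre_ne_msk {l : ℕ} {u : S} : fre u ≠ msk l := by
  simp [fre, msk]

/-- At most one further string is asked on the other side. -/
theorem exists_extra {k n τ : ℕ} {M : Mac} {t c : S} (hk : 1 ≤ k) (hq : (M.qs t).length = k)
    (h : Full k n τ M t c) :
    ∃ x, (x = [] ∨ x ∈ Es M t) ∧ (∀ i, x ≠ sh i c ∨ k - 1 ≤ i) ∧
      ∀ q ∈ Es M t, (∃ i < k - 1, q = sh i c) ∨ q = x := by
  classical
  set T : Finset S := (Finset.range (k - 1)).image (fun i => sh i c) with hT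
  have hTc : T.card = k - 1 := by
    rw [hT, Finset.card_image_of_injective _ (fun i j hij => (sh_inj hij).1), Finset.card_range]
  have hsub : T ⊆ Es M t := by
    intro q hq'
    rw [hT, Finset.mem_image] at hq'
    obtain ⟨i, hi, rfl⟩ := hq'
    exact h.2 i (Finset.mem_range.1 hi)
  have h1 : (Es M t \ T).card ≤ 1 := by
    rw [Finset.card_sdiff_of_subset hsub, hTc]
    have := Es_card (M := M) (t := t) hq
    omega
  rcases Finset.eq_empty_or_nonempty (Es M t \ T) with he | ⟨x, hx⟩
  · refine ⟨[], Or.inl rfl, fun i => Or.inl (by simp [sh]), fun q hq' => ?_⟩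
    left
    have : q ∈ T := by
      by_contra hqT
      have : q ∈ Es M t \ T := Finset.mem_sdiff.2 ⟨hq', hqT⟩
      rw [he] at this
      exact absurd this (Finset.notMem_empty _)
    rw [hT, Finset.mem_image] at this
    obtain ⟨i, hi, rfl⟩ := this
    exact ⟨i, Finset.mem_range.1 hi, rfl⟩
  · obtain ⟨hx1, hx2⟩ := Finset.mem_sdiff.1 hx
    refine ⟨x, Or.inr hx1, fun i => ?_, fun q hq' => ?_⟩
    · by_cases hi : i < k - 1
      · left
        rintro rfl
        exact hx2 (Finset.mem_image.2 ⟨i, Finset.mem_range.2 hi, rfl⟩)
      · right
        omega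
    · by_cases hqT : q ∈ T
      · left
        rw [hT, Finset.mem_image] at hqT
        obtain ⟨i, hi, rfl⟩ := hqT
        exact ⟨i, Finset.mem_range.1 hi, rfl⟩
      · right
        exact Finset.card_le_one.1 h1 q (Finset.mem_sdiff.2 ⟨hq', hqT⟩) x hx

/-! ### values -/

section values

variable {k n τ a : ℕ} {mode : Bool} {low : S → Bool} {key : S} {b : Bool} {P : S → Bool}
  {X : S → Bool}

theorem inI_sh {i : ℕ} {c : S} : inI n τ (sh i c) = true ↔ InI n τ c := by
  unfold inI InI
  rw [lev_sh]
  simp

theorem evQ_sh {i : ℕ} {c : S} (hi : i + 1 < k) (hc : InI n τ c) :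
    evQ k n τ a mode low key b P X (sh i c) =
      (P (sh i c) || (X (sh 0 c) && (decide (i + 2 < k) || !b))) := by
  have h1 : isSh k (sh i c) = true := by
    rw [isSh_sh]
    simpa using hi
  have h2 : inI n τ (sh i c) = true := inI_sh.2 hc
  unfold evQ atm isCod
  rw [h1, h2, isMsk_sh, isFre_sh, idx_sh, rest_sh]
  simp

theorem evQ_msk (h : n ≤ τ) : evQ k n τ a mode low key b P X (msk n) = b := by
  have h1 : inI n τ (msk n) = true := by
    unfold inI
    rw [lev_msk]
    simpa using h
  unfold evQ isCod
  rw [h1, isMsk_msk, lev_msk]
  simp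

theorem evQ_fre {u : S} (h : n ≤ u.length) (h' : u.length ≤ τ) :
    evQ k n τ a mode low key b P X (fre u) = P (fre u) := by
  have h1 : inI n τ (fre u) = true := by
    unfold inI
    rw [lev_fre]
    simp [h, h']
  unfold evQ isCod
  rw [h1, isMsk_fre, isFre_fre]
  simp

/-- The string can be the key of a plan. -/
def keyable (k n a : ℕ) (x : S) : Bool :=
  isSh k x && decide (idx x = 0) && decide (a ≤ lev x) && decide (lev x < n)

/-- The value of an extra string. -/
def kap (k n τ a : ℕ) (low : S → Bool) (x : S) (v : Bool) : Bool :=
  if isCod k x then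
    (if inI n τ x then
      (if isMsk x then false else if isFre x then v else true)
    else if lev x < a then low x else keyable k n a x)
  else false

theorem eq_msk {q : S} (h : isMsk q = true) : q = msk (lev q) := by
  have h1 : q = msk (q.length - 2) := by
    unfold isMsk at h
    exact of_decide_eq_true h
  have h2 : lev q = q.length - 2 := by
    rw [h1]
    rw [lev_msk]
    simp [msk]
  rw [h2]
  exact h1

theorem isSh_of_cod {q : S} (h : isCod k q = true) (h1 : isMsk q ≠ true) (h2 : isFre q ≠ true) :
    isSh k q = true := by
  unfold isCod at h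
  simp only [Bool.or_eq_true] at h
  rcases h with (h | h) | h
  · exact absurd h h1
  · exact absurd h h2
  · exact h

/-- An extra string has a constant value if it is the key or cannot be the key. -/
theorem evQ_extra {x : S} (hx : lev x ≤ τ) (hm : x ≠ msk n)
    (hP : isSh k x = true → inI n τ x = true → P x = true) :
    evQ k n τ a (!keyable k n a x) low x b P X x = kap k n τ a low x (P x) := by
  unfold evQ kap
  by_cases hc : isCod k x = true
  · rw [if_pos hc, if_pos hc]
    by_cases hi : inI n τ x = true
    · rw [if_pos hi, if_pos hi]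
      by_cases h1 : isMsk x = true
      · rw [if_pos h1, if_pos h1]
        have h2 : lev x ≠ n := by
          intro h3
          apply hm
          rw [eq_msk h1, h3]
        simp [h2]
      · rw [if_neg h1, if_neg h1]
        by_cases h2 : isFre x = true
        · rw [if_pos h2, if_pos h2]
        · rw [if_neg h2, if_neg h2, hP (isSh_of_cod hc h1 h2) hi]
          simp
    · rw [if_neg hi, if_neg hi]
      have hl : lev x < n := by
        by_contra h3
        apply hi
        unfold inI
        simp only [Bool.and_eq_true, decide_eq_true_eq]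
        omega
      rw [if_pos hl]
      by_cases hk : keyable k n a x = true
      · have hk' := hk
        unfold keyable at hk'
        simp only [Bool.and_eq_true, decide_eq_true_eq] at hk'
        rw [hk]
        simp only [Bool.not_true, Bool.false_eq_true, if_false, decide_true, Bool.true_or]
        rw [if_neg (by omega)]
      · rw [Bool.not_eq_true] at hk
        rw [hk]
        simp only [Bool.not_false, if_true]
        by_cases ha : lev x < a
        · rw [if_pos ha, if_pos ha]
        · rw [if_neg ha, if_neg ha]
          have h4 : (isSh k x && decide (idx x = 0)) = false := by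
            unfold keyable at hk
            have e1 : decide (a ≤ lev x) = true := decide_eq_true (by omega)
            have e2 : decide (lev x < n) = true := decide_eq_true hl
            rw [e1, e2, Bool.and_true, Bool.and_true] at hk
            exact hk
          rw [h4, Bool.false_and]
  · rw [if_neg hc, if_neg hc]

end values

end Pool.Agent.Helper5.BG
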