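import Pool.Agent.Helper5.BG.Real

/-!
Project BG (MP_4a5e7e_lc): plans with one or two targets.
-/

namespace Pool.Agent.Helper5.BG

open Pool.Agent.Helper21.BX

/-- The pattern `p` at the shares, `κ` at the extra string `x`. -/
def gp (p : ℕ → Bool) (x : S) (κ : Bool) (q : S) : Bool := if q = x then κ else p (idx q)

theorem resp_gp {k : ℕ} {M : Mac} {t c x : S} (_hx : ∀ i, x ≠ sh i c ∨ k - 1 ≤ i)
    (hE : ∀ q ∈ Es M t, (∃ i < k - 1, q = sh i c) ∨ q = x) {e : S → Bool} {p : ℕ → Bool} {κ : Bool}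
    (h1 : ∀ i < k - 1, e (sh i c) = p i) (h2 : e x = κ) :
    resp M e t = resp M (gp p x κ) t := by
  refine resp_congr fun q hq => ?_
  unfold gp
  by_cases hqx : q = x
  · rw [if_pos hqx, hqx, h2]
  · rw [if_neg hqx]
    rcases hE q hq with ⟨i, hi, rfl⟩ | h
    · rw [h1 i hi, idx_sh]
    · exact absurd h hqx

theorem table_cases (k : ℕ) (M : Mac) (t x : S) (κ : Bool) :
    (∃ p : ℕ → Bool, (∃ i < k - 1, p i = false) ∧
      resp M (gp p x κ) t = resp M (gp (fun _ => true) x κ) t) ∨
    ∀ p : ℕ → Bool, (∃ i < k - 1, p i = false) →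
      resp M (gp p x κ) t = !resp M (gp (fun _ => true) x κ) t := by
  by_cases h : ∃ p : ℕ → Bool, (∃ i < k - 1, p i = false) ∧
      resp M (gp p x κ) t = resp M (gp (fun _ => true) x κ) t
  · exact Or.inl h
  · right
    intro p hp
    by_contra h1
    apply h
    refine ⟨p, hp, ?_⟩
    cases h2 : resp M (gp p x κ) t <;> cases h3 : resp M (gp (fun _ => true) x κ) t <;>
      simp_all

/-- The set `L` of a plan with target `t`, instance `c`, extra string `x`. -/
def PP (k : ℕ) (t c x : S) (p₀ : ℕ → Bool) (α : Bool) (B₀ : S → Bool) (q : S) : Bool :=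
  if q = t then α
  else if q = sh (idx q) c ∧ idx q < k - 1 then p₀ (idx q)
  else if q = x ∧ isSh k x = true then true
  else B₀ q

section

variable {k n τ a : ℕ} {M : Mac} {low : S → Bool} {t c x : S} {p₀ : ℕ → Bool} {α : Bool}
  {B₀ : S → Bool}

theorem PP_t : PP k t c x p₀ α B₀ t = α := if_pos rfl

theorem PP_sh (ht : ∀ i, t ≠ sh i c) {i : ℕ} (hi : i < k - 1) :
    PP k t c x p₀ α B₀ (sh i c) = p₀ i := by
  unfold PP
  rw [if_neg (fun h => ht i h.symm), idx_sh, if_pos ⟨rfl, hi⟩]

theorem PP_x (hxt : x ≠ t) (hx : ∀ i, x ≠ sh i c ∨ k - 1 ≤ i) :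
    PP k t c x p₀ α B₀ x = if isSh k x = true then true else B₀ x := by
  unfold PP
  rw [if_neg hxt, if_neg]
  · by_cases h : isSh k x = true
    · rw [if_pos ⟨rfl, h⟩, if_pos h]
    · rw [if_neg (fun h' => h h'.2), if_neg h]
  · rintro ⟨h1, h2⟩
    rcases hx (idx x) with h | h
    · exact h h1
    · omega

/-- A legitimate set. -/
theorem PP_leg (hk : 4 ≤ k) (ht : ∀ i, t ≠ sh i c) (ht2 : ∀ i < 2, ∀ d, t ≠ sh i d)
    (hB : ∀ i < 2, ∀ d, B₀ (sh i d) = false) {b : Bool}
    (hp : ∃ i < (if b then k - 2 else k - 1), p₀ i = false) (d : S) :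
    ∃ i < (if b then k - 2 else k - 1), PP k t c x p₀ α B₀ (sh i d) = false := by
  by_cases hd : d = c
  · subst hd
    obtain ⟨i, hi, hpi⟩ := hp
    refine ⟨i, hi, ?_⟩
    rw [PP_sh ht, hpi]
    split_ifs at hi <;> omega
  · have key : ∀ i < 2, sh i d ≠ x → PP k t c x p₀ α B₀ (sh i d) = false := by
      intro i hi hx
      unfold PP
      rw [if_neg (fun h => ht2 i hi d h.symm), if_neg, if_neg (fun h => hx h.1), hB i hi]
      rintro ⟨h1, -⟩
      exact hd (sh_inj h1).2
    by_cases h0 : sh 0 d = x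
    · refine ⟨1, by split_ifs <;> omega, key 1 (by norm_num) ?_⟩
      intro h1
      have := (sh_inj (h0.trans h1.symm)).1
      omega
    · exact ⟨0, by split_ifs <;> omega, key 0 (by norm_num) h0⟩

/-- A scenario in which the answer at `t` is constant. -/
theorem one (hk : 4 ≤ k) (hF : Full k n τ M t c) (hx : ∀ i, x ≠ sh i c ∨ k - 1 ≤ i)
    (hE : ∀ q ∈ Es M t, (∃ i < k - 1, q = sh i c) ∨ q = x) (hxm : x ≠ msk n) (hxl : lev x ≤ τ)
    (hxt : x ≠ t) (ht : ∀ i, t ≠ sh i c) (a : ℕ) (low B₀ : S → Bool) :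
    ∃ (b : Bool) (p₀ : ℕ → Bool) (v : Bool), (∃ i < (if b then k - 2 else k - 1), p₀ i = false) ∧
      ∀ (α : Bool) (X : S → Bool), resp M (evQ k n τ a (!keyable k n a x) low x b
        (PP k t c x p₀ α B₀) X) t = v := by
  set κ : Bool := kap k n τ a low x (if isSh k x = true then true else B₀ x) with hκ
  have ex : ∀ (b : Bool) (p₀ : ℕ → Bool) (α : Bool) (X : S → Bool),
      evQ k n τ a (!keyable k n a x) low x b (PP k t c x p₀ α B₀) X x = κ := by
    intro b p₀ α X
    rw [evQ_extra hxl hxm, PP_x hxt hx]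
    intro h _
    rw [PP_x hxt hx, if_pos h]
  have es : ∀ (b : Bool) (p₀ : ℕ → Bool) (α : Bool) (X : S → Bool), ∀ i < k - 1,
      evQ k n τ a (!keyable k n a x) low x b (PP k t c x p₀ α B₀) X (sh i c) =
        (p₀ i || (X (sh 0 c) && (decide (i + 2 < k) || !b))) := by
    intro b p₀ α X i hi
    rw [evQ_sh (by omega) hF.1, PP_sh ht hi]
  rcases table_cases k M t x κ with ⟨p₀, hp, hv⟩ | h
  · refine ⟨false, p₀, resp M (gp (fun _ => true) x κ) t, by simpa using hp, fun α X => ?_⟩
    cases hX : X (sh 0 c) with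
    | true =>
      refine resp_gp hx hE (fun i hi => ?_) (ex _ _ _ _)
      rw [es false p₀ α X i hi, hX]
      simp
    | false =>
      rw [← hv]
      refine resp_gp hx hE (fun i hi => ?_) (ex _ _ _ _)
      rw [es false p₀ α X i hi, hX]
      simp
  · refine ⟨true, fun _ => false, !resp M (gp (fun _ => true) x κ) t,
      ⟨0, by simp; omega, rfl⟩, fun α X => ?_⟩
    rw [← h (fun i => X (sh 0 c) && decide (i + 2 < k)) ⟨k - 2, by omega, by
      have : ¬ (k - 2 + 2 < k) := by omega
      simp [this]⟩]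
    refine resp_gp hx hE (fun i hi => ?_) (ex _ _ _ _)
    rw [es true _ α X i hi]
    simp

end

section

variable {k n τ a : ℕ} {M : Mac} {low : S → Bool}

theorem n_le_sq (n : ℕ) : n ≤ n ^ 2 := by
  rw [pow_two]
  exact Nat.le_mul_self n

theorem keyable_nil : keyable k n a [] = false := by
  simp [keyable, isSh, lead]

theorem exists_qs (hk : 1 ≤ k) (hq : ∀ q, (M.qs q).length = k) (t : S) : ∃ z, z ∈ M.qs t := by
  cases h : M.qs t with
  | nil =>
    have := hq t
    rw [h] at this
    simp at this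
    omega
  | cons z l => exact ⟨z, List.mem_cons_self⟩

/-- (A2): a full target, the mask is not asked on the other side. -/
theorem plan_A2 (hk : 4 ≤ k) (hτ : n ^ 2 ≤ τ) (hq : ∀ q, (M.qs q).length = k) {u : S}
    (hu : u.length = n ^ 2) (hlev : ∀ q ∈ M.qs (fre u), lev q ≤ τ) {c : S}
    (hF : Full k n τ M (fre u) c) (hm : msk n ∉ Es M (fre u)) : HasPlan M k n τ a low := by
  obtain ⟨x, hx0, hx, hE⟩ := exists_extra (by omega) (hq _) hF
  have hxm : x ≠ msk n := by
    rcases hx0 with rfl | h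
    · simp [msk]
    · rintro rfl
      exact hm h
  have hxl : lev x ≤ τ := by
    rcases hx0 with rfl | h
    · simp [lev, lead]
    · exact hlev x (mem_Es.1 h).1
  have hxt : x ≠ fre u := by
    rcases hx0 with rfl | h
    · simp [fre]
    · rintro rfl
      exact (mem_Es.1 h).2 rfl
  obtain ⟨b, p₀, v, hp, hv⟩ := one hk hF hx hE hxm hxl hxt (fun i => (sh_ne_fre).symm) a low
    (fun _ => false)
  obtain ⟨z, hz⟩ := exists_qs (M := M) (by omega) hq (fre u)
  refine hasPlan_of hq hu hu hz hz (!keyable k n a x) b (PP k (fre u) c x p₀ (!v) fun _ => false)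
    x ?_ (fun d _ => PP_leg hk (fun i => (sh_ne_fre).symm) (fun i _ d => (sh_ne_fre).symm)
      (fun _ _ _ => rfl) hp d) (fun X => ⟨fre u, by simp, ?_⟩)
  · cases hkx : keyable k n a x with
    | false => exact Or.inl rfl
    | true =>
      right
      refine ⟨rfl, ?_⟩
      rcases hx0 with rfl | h
      · rw [keyable_nil] at hkx
        exact absurd hkx (by simp)
      · rw [List.mem_append]
        right
        exact List.mem_flatMap.2 ⟨fre u, by simp, (mem_Es.1 h).1⟩
  · rw [vio_iff, hv, evQ_fre (by rw [hu]; exact n_le_sq n) (by rw [hu]; exact hτ), PP_t]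
    cases v <;> simp

/-- The target `fre u` reveals whether `c` is accepted if the plan has `b = false`. -/
def Cond (k n τ a : ℕ) (M : Mac) (u c : S) (r : Bool) : Prop :=
  Full k n τ M (fre u) c ∧ msk n ∈ Es M (fre u) ∧
    ∀ (mode : Bool) (low : S → Bool) (key : S) (P X : S → Bool),
      (∃ i < k - 1, P (sh i c) = false) →
      resp M (evQ k n τ a mode low key false P X) (fre u) = if X (sh 0 c) = true then r else !r

/-- (A1). -/
theorem plan_A1 (hk : 4 ≤ k) (hτ : n ^ 2 ≤ τ) (hq : ∀ q, (M.qs q).length = k) {u : S}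
    (hu : u.length = n ^ 2) {c : S} (hF : Full k n τ M (fre u) c) (hm : msk n ∈ Es M (fre u)) :
    HasPlan M k n τ a low ∨ ∃ r, Cond k n τ a M u c r := by
  obtain ⟨x, hx0, hx, hE⟩ := exists_extra (by omega) (hq _) hF
  have hxm : x = msk n := by
    rcases hE _ hm with ⟨i, -, h⟩ | h
    · exact absurd h.symm sh_ne_msk
    · exact h.symm
  subst hxm
  have hn : n ≤ τ := (n_le_sq n).trans hτ
  rcases table_cases k M (fre u) (msk n) false with ⟨p₀, hp, hv⟩ | h
  · left
    set v := resp M (gp (fun _ => true) (msk n) false) (fre u) with hvd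
    obtain ⟨z, hz⟩ := exists_qs (M := M) (by omega) hq (fre u)
    refine hasPlan_of hq hu hu hz hz true false
      (PP k (fre u) c (msk n) p₀ (!v) fun _ => false) (msk n) (Or.inl rfl)
      (fun d _ => PP_leg hk (fun i => (sh_ne_fre).symm) (fun i _ d => (sh_ne_fre).symm)
      (fun _ _ _ => rfl) (by simpa using hp) d) (fun X => ⟨fre u, by simp, ?_⟩)
    have es : ∀ i < k - 1, evQ k n τ a true low (msk n) false
        (PP k (fre u) c (msk n) p₀ (!v) fun _ => false) X (sh i c) =
        (p₀ i || X (sh 0 c)) := by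
      intro i hi
      rw [evQ_sh (by omega) hF.1, PP_sh (fun i => (sh_ne_fre).symm) hi]
      simp
    have hr : resp M (evQ k n τ a true low (msk n) false
        (PP k (fre u) c (msk n) p₀ (!v) fun _ => false) X) (fre u) = v := by
      cases hX : X (sh 0 c) with
      | true =>
        refine resp_gp hx hE (fun i hi => ?_) (evQ_msk hn)
        rw [es i hi, hX]
        simp
      | false =>
        refine Eq.trans ?_ hv
        refine resp_gp hx hE (fun i hi => ?_) (evQ_msk hn)
        rw [es i hi, hX]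
        simp
    rw [vio_iff, hr, evQ_fre (by rw [hu]; exact n_le_sq n) (by rw [hu]; exact hτ), PP_t]
    cases v <;> simp
  · right
    refine ⟨resp M (gp (fun _ => true) (msk n) false) (fre u), hF, hm, ?_⟩
    intro mode low key P X hP
    cases hX : X (sh 0 c) with
    | true =>
      simp only [if_true]
      refine resp_gp hx hE (fun i hi => ?_) (evQ_msk hn)
      rw [evQ_sh (by omega) hF.1, hX]
      simp
    | false =>
      simp only [Bool.false_eq_true, if_false]
      rw [← h (fun i => P (sh i c)) hP]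
      refine resp_gp hx hE (fun i hi => ?_) (evQ_msk hn)
      rw [evQ_sh (by omega) hF.1, hX]
      simp

/-- What is on the side of the mask. -/
theorem side_z {u c : S} {r : Bool} (h : Cond k n τ a M u c r) {i : ℕ} (hi : i < k - 1) :
    M.side (sh i c) = M.side (msk n) := by
  have h1 := (mem_Es.1 (h.1.2 i hi)).2
  have h2 := (mem_Es.1 h.2.1).2
  cases h3 : M.side (sh i c) <;> cases h4 : M.side (msk n) <;> cases h5 : M.side (fre u) <;>
    simp_all

/-- (A1b), the last share of `c` is full. -/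
theorem plan_A1b (hk : 4 ≤ k) (hτ : n ^ 2 ≤ τ) (hq : ∀ q, (M.qs q).length = k) {u : S}
    (hu : u.length = n ^ 2)
    (hlev : ∀ q ∈ M.qs (fre u), lev q ≤ τ ∧ ∀ q' ∈ M.qs q, lev q' ≤ τ) {c : S} {r : Bool}
    (hC : Cond k n τ a M u c r) {c₃ : S} (hF : Full k n τ M (sh (k - 2) c) c₃) :
    HasPlan M k n τ a low := by
  have hzE : sh (k - 2) c ∈ Es M (fre u) := hC.1.2 _ (by omega)
  set z : S := sh (k - 2) c with hz
  have hzs : M.side z = M.side (msk n) := side_z hC (by omega)
  obtain ⟨x, hx0, hx, hE⟩ := exists_extra (by omega) (hq _) hF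
  have hside : ∀ q ∈ Es M z, M.side q ≠ M.side (msk n) := by
    intro q hq'
    rw [← hzs]
    exact (mem_Es.1 hq').2
  have hcz : ∀ i < k - 1, sh i c ∉ Es M z := fun i hi h => hside _ h (side_z hC hi)
  have hxm : x ≠ msk n := by
    rcases hx0 with rfl | h
    · simp [msk]
    · rintro rfl
      exact hside _ h rfl
  have hxl : lev x ≤ τ := by
    rcases hx0 with rfl | h
    · simp [lev, lead]
    · exact (hlev z (mem_Es.1 hzE).1).2 x (mem_Es.1 h).1
  have hxt : x ≠ z := by
    rcases hx0 with rfl | h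
    · simp [hz, sh]
    · rintro rfl
      exact (mem_Es.1 h).2 rfl
  have hcc : c ≠ c₃ := by
    rintro rfl
    exact hcz 0 (by omega) (hF.2 0 (by omega))
  have ht : ∀ i, z ≠ sh i c₃ := fun i h => hcc (sh_inj h).2
  have hxc : ∀ i < k - 1, sh i c ≠ x := by
    intro i hi h
    rcases hx0 with rfl | h'
    · simp [sh] at h
    · rw [← h] at h'
      exact hcz i hi h'
  obtain ⟨b, p₀, v, hp, hv⟩ := one hk hF hx hE hxm hxl hxt ht a low
    (fun q => decide (q = fre u) && !r)
  set P : S → Bool := PP k z c₃ x p₀ (!v) (fun q => decide (q = fre u) && !r) with hP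
  have hP0 : P (sh 0 c) = false := by
    rw [hP]
    unfold PP
    rw [if_neg, if_neg, if_neg]
    · simp [sh_ne_fre]
    · rintro ⟨h, -⟩
      exact hxc 0 (by omega) h
    · rintro ⟨h, -⟩
      exact hcc (sh_inj h).2
    · intro h
      have := (sh_inj h).1
      omega
  have hPy : P (fre u) = !r := by
    rw [hP]
    unfold PP
    rw [if_neg, if_neg, if_neg]
    · simp
    · rintro ⟨h, h'⟩
      rw [← h, isSh_fre] at h'
      exact absurd h' (by simp)
    · rintro ⟨h, -⟩
      exact sh_ne_fre h.symm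
    · exact fun h => sh_ne_fre h.symm
  refine hasPlan_of hq hu hu (mem_Es.1 hzE).1 (mem_Es.1 hzE).1 (!keyable k n a x) b P x ?_
    (fun d _ => PP_leg hk ht (fun i hi d h => ?_) (fun i hi d => by simp [sh_ne_fre]) hp d)
    (fun X => ?_)
  · cases hkx : keyable k n a x with
    | false => exact Or.inl rfl
    | true =>
      right
      refine ⟨rfl, ?_⟩
      rcases hx0 with rfl | h
      · rw [keyable_nil] at hkx
        exact absurd hkx (by simp)
      · rw [List.mem_append]
        right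
        exact List.mem_flatMap.2 ⟨z, by simp, (mem_Es.1 h).1⟩
  · have := (sh_inj (hz.symm.trans h)).1
    omega
  · have ez : evQ k n τ a (!keyable k n a x) low x b P X z =
        (!v || (X (sh 0 c) && !b)) := by
      rw [hz, evQ_sh (by omega) hC.1.1, ← hz, hP, PP_t]
      have : ¬ (k - 2 + 2 < k) := by omega
      simp [this]
    have hr := hv (!v) X
    by_cases hXb : (X (sh 0 c) && !b) = true
    · simp only [Bool.and_eq_true, Bool.not_eq_true'] at hXb
      obtain ⟨h1, h2⟩ := hXb
      refine ⟨fre u, by simp, ?_⟩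
      subst h2
      rw [vio_iff, evQ_fre (by rw [hu]; exact n_le_sq n) (by rw [hu]; exact hτ), hPy,
        hC.2.2 _ _ _ P X ⟨0, by omega, hP0⟩, if_pos h1]
      cases r <;> simp
    · rw [Bool.not_eq_true] at hXb
      refine ⟨z, by simp, ?_⟩
      rw [vio_iff, hr, ez, hXb]
      cases v <;> simp

/-- The cases for one free string. -/
theorem dich (hk : 4 ≤ k) (hτ : n ^ 2 ≤ τ) (hq : ∀ q, (M.qs q).length = k) {u : S}
    (hu : u.length = n ^ 2)
    (hlev : ∀ q ∈ M.qs (fre u), lev q ≤ τ ∧ ∀ q' ∈ M.qs q, lev q' ≤ τ)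
    (h : ¬ HasPlan M k n τ a low) :
    (∀ c, ¬ Full k n τ M (fre u) c) ∨
      ∃ c r, Cond k n τ a M u c r ∧ ∀ d, ¬ Full k n τ M (sh (k - 2) c) d := by
  by_cases h1 : ∃ c, Full k n τ M (fre u) c
  · right
    obtain ⟨c, hc⟩ := h1
    by_cases hm : msk n ∈ Es M (fre u)
    · rcases plan_A1 (low := low) (a := a) hk hτ hq hu hc hm with h2 | ⟨r, h2⟩
      · exact absurd h2 h
      · exact ⟨c, r, h2, fun d hd => h (plan_A1b hk hτ hq hu hlev h2 hd)⟩
    · exact absurd (plan_A2 hk hτ hq hu (fun q hq' => (hlev q hq').1) hc hm) h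
  · left
    exact fun c hc => h1 ⟨c, hc⟩

end

end Pool.Agent.Helper5.BG
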