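import Pool.Agent.Helper5.BG.Basic

/-!
Project BG (MP_4a5e7e_lc): two members of a large family of small sets whose union contains no complete set
of shares.
-/

namespace Pool.Agent.Helper5.BG

open Pool.Agent.Helper21.BX

/-- The bound. -/
def BB (k : ℕ) : ℕ := 2 * (k + 1) * (2 * k ^ 2) ^ k

private theorem step_aux {k : ℕ} (D : ℕ) (G : Finset S) (E : S → Finset S) (F : Finset S → Finset S)
    (hF : ∀ T u, u ∈ F T ↔ u ∈ G ∧ T ⊆ E u) (hE : ∀ u ∈ G, (E u).card ≤ k) (hG : 0 < G.card) :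
    ∃ T : Finset S, T.card ≤ k ∧ G.card ≤ D ^ T.card * (F T).card ∧
      ∀ s, s ∉ T → D * (F (insert s T)).card < (F T).card := by
  classical
  by_contra hno
  have R : ∀ m, m ≤ k + 1 → ∃ T : Finset S, T.card = m ∧ G.card ≤ D ^ m * (F T).card := by
    intro m
    induction m with
    | zero =>
      intro _
      refine ⟨∅, rfl, ?_⟩
      rw [pow_zero, one_mul]
      exact Finset.card_le_card fun u hu => (hF _ _).2 ⟨hu, Finset.empty_subset _⟩
    | succ m ih =>
      intro hm
      obtain ⟨T, hT, hc⟩ := ih (by omega)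
      have h1 : ∃ s, s ∉ T ∧ (F T).card ≤ D * (F (insert s T)).card := by
        by_contra h2
        refine hno ⟨T, by omega, by rw [hT]; exact hc, fun s hs => ?_⟩
        by_contra h3
        exact h2 ⟨s, hs, not_lt.1 h3⟩
      obtain ⟨s, hs, hc2⟩ := h1
      refine ⟨insert s T, by rw [Finset.card_insert_of_notMem hs, hT], ?_⟩
      calc G.card ≤ D ^ m * (F T).card := hc
        _ ≤ D ^ m * (D * (F (insert s T)).card) := Nat.mul_le_mul_left _ hc2
        _ = D ^ (m + 1) * (F (insert s T)).card := by ring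
  obtain ⟨T, hT, hc⟩ := R (k + 1) le_rfl
  have h0 : F T = ∅ := by
    rw [Finset.eq_empty_iff_forall_notMem]
    intro u hu
    obtain ⟨h1, h2⟩ := (hF _ _).1 hu
    have h3 := Finset.card_le_card h2
    have h4 := hE u h1
    omega
  rw [h0, Finset.card_empty, mul_zero] at hc
  omega

/-- Proof. Put `D = 2 * k ^ 2` and `G T = G.filter (fun u => T ⊆ E u)`. Let `R m` be: there is `T` with `T.card = m`
and `G.card ≤ D ^ m * (G T).card`. `R 0` is true (`T = ∅`), `R (k + 1)` is false (`G T` is empty as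
`(E u).card ≤ k`). So there are `m ≤ k` and `T` with `T.card = m`, `G.card ≤ D ^ m * (G T).card` and not `R (m + 1)`
(`Nat.find`, or induction). Hence `2 * (k + 1) < (G T).card`, and `D * (G (insert s T)).card < (G T).card` for all
`s ∉ T`. Choose `u ∈ G T` with `fre u ∉ T` (there are at most `k` members `u` with `fre u ∈ T`, `fre_inj`). The bad
`u2 ∈ G T` are: `u2 = u` (one), `fre u2 ∈ E u` (at most `k`), `fre u ∈ E u2` (these are in `G (insert (fre u) T)`),
and those for which some `c` with `Q c` has `∀ i < k - 1, sh i c ∈ E u ∨ sh i c ∈ E u2`: by `hfull` for `u2` there is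
`e = sh i₀ c ∈ E u` (so `c = rest e`, `rest_sh`), and by `hfull` for `u` there is `i₁ < k - 1` with
`sh i₁ c ∈ E u2`, `sh i₁ c ∉ E u`, hence `∉ T`; so `u2` is in the union of the `G (insert (sh i₁ (rest e)) T)` over
`e ∈ E u`, `i₁ < k - 1` with `sh i₁ (rest e) ∉ T` (`Finset.card_biUnion_le`). So `D` times the number of the bad ones is
at most `D * (k + 1) + (G T).card + k * (k - 1) * (G T).card < D * (G T).card`, and there is `u2 ∈ G T` which
is not bad. -/
theorem exists_pair {k : ℕ} (hk : 2 ≤ k) (Q : S → Prop) (G : Finset S) (E : S → Finset S)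
    (hE : ∀ u ∈ G, (E u).card ≤ k) (hfull : ∀ u ∈ G, ∀ c, Q c → ∃ i < k - 1, sh i c ∉ E u)
    (hG : BB k < G.card) :
    ∃ u ∈ G, ∃ u2 ∈ G, u ≠ u2 ∧ fre u2 ∉ E u ∧ fre u ∉ E u2 ∧
      ∀ c, Q c → ∃ i < k - 1, sh i c ∉ E u ∧ sh i c ∉ E u2 := by
  classical
  set D : ℕ := 2 * k ^ 2 with hD
  let F : Finset S → Finset S := fun T => G.filter (fun u => T ⊆ E u)
  have hF : ∀ T u, u ∈ F T ↔ u ∈ G ∧ T ⊆ E u := fun T u => Finset.mem_filter
  obtain ⟨T, hTk, hTG, hTm⟩ := step_aux D G E F hF hE (by omega)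
  have hDpos : 1 ≤ D := by
    rw [hD]
    have : 0 < k ^ 2 := by positivity
    omega
  -- the number of members over `T`
  have hg : 2 * (k + 1) < (F T).card := by
    by_contra hlt
    have h1 : D ^ T.card ≤ D ^ k := Nat.pow_le_pow_right hDpos hTk
    have h2 : D ^ T.card * (F T).card ≤ D ^ k * (2 * (k + 1)) := Nat.mul_le_mul h1 (not_lt.1 hlt)
    have h3 : D ^ k * (2 * (k + 1)) = BB k := by
      unfold BB
      rw [← hD]
      ring
    omega
  -- a member `u` with `fre u ∉ T`
  have hu : ∃ u ∈ F T, fre u ∉ T := by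
    by_contra hno
    have h1 : (F T).card ≤ T.card := by
      refine Finset.card_le_card_of_injOn fre (fun u hu => ?_) (fun u _ v _ h => fre_inj h)
      by_contra h2
      exact hno ⟨u, hu, h2⟩
    omega
  obtain ⟨u, huF, huT⟩ := hu
  obtain ⟨huG, hTu⟩ := (hF _ _).1 huF
  have hEu := hE u huG
  -- the bad ones
  set B1 : Finset S := (F T).filter (fun v => fre v ∈ E u) with hB1
  set B2 : Finset S := F (insert (fre u) T) with hB2
  set I : Finset (S × ℕ) := ((E u) ×ˢ (Finset.range (k - 1))).filter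
    (fun p => sh p.2 (rest p.1) ∉ T) with hI
  set B3 : Finset S := I.biUnion (fun p => F (insert (sh p.2 (rest p.1)) T)) with hB3
  have c1 : B1.card ≤ k := by
    refine le_trans (Finset.card_le_card_of_injOn fre (fun v hv => ?_) (fun u _ v _ h => fre_inj h)) hEu
    rw [hB1] at hv
    exact (Finset.mem_filter.1 hv).2
  have c2 : D * B2.card ≤ (F T).card := (hTm _ huT).le
  have cI : I.card ≤ k * (k - 1) := by
    refine (Finset.card_filter_le _ _).trans ?_
    rw [Finset.card_product, Finset.card_range]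
    exact Nat.mul_le_mul_right _ hEu
  have c3 : D * B3.card ≤ k * (k - 1) * (F T).card := by
    calc D * B3.card ≤ D * ∑ p ∈ I, (F (insert (sh p.2 (rest p.1)) T)).card :=
          Nat.mul_le_mul_left _ Finset.card_biUnion_le
      _ = ∑ p ∈ I, D * (F (insert (sh p.2 (rest p.1)) T)).card := Finset.mul_sum _ _ _
      _ ≤ ∑ _p ∈ I, (F T).card := by
          refine Finset.sum_le_sum fun p hp => ?_
          rw [hI] at hp
          exact (hTm _ (Finset.mem_filter.1 hp).2).le
      _ = I.card * (F T).card := by rw [Finset.sum_const, smul_eq_mul]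
      _ ≤ k * (k - 1) * (F T).card := Nat.mul_le_mul_right _ cI
  have hex : ∃ v ∈ F T, v ∉ ({u} ∪ B1 ∪ B2 ∪ B3 : Finset S) := by
    by_contra hno
    have h1 : (F T).card ≤ ({u} ∪ B1 ∪ B2 ∪ B3 : Finset S).card := by
      refine Finset.card_le_card fun v hv => ?_
      by_contra h2
      exact hno ⟨v, hv, h2⟩
    have h2 : ({u} ∪ B1 ∪ B2 ∪ B3 : Finset S).card ≤ 1 + B1.card + B2.card + B3.card := by
      have e1 := Finset.card_union_le ({u} ∪ B1 ∪ B2 : Finset S) B3
      have e2 := Finset.card_union_le ({u} ∪ B1 : Finset S) B2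
      have e3 := Finset.card_union_le ({u} : Finset S) B1
      rw [Finset.card_singleton] at e3
      omega
    have h3 : D * (F T).card ≤ D * (1 + B1.card + B2.card + B3.card) :=
      Nat.mul_le_mul_left _ (h1.trans h2)
    have h4 : D * (1 + B1.card + B2.card + B3.card) =
        D * (1 + B1.card) + D * B2.card + D * B3.card := by ring
    have h5 : D * (1 + B1.card) ≤ D * (k + 1) := Nat.mul_le_mul_left _ (by omega)
    have h6 : D * (F T).card ≤ D * (k + 1) + (F T).card + k * (k - 1) * (F T).card := by omega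
    obtain ⟨j, rfl⟩ : ∃ j, k = j + 1 := ⟨k - 1, by omega⟩
    rw [Nat.add_sub_cancel] at h6
    set g := (F T).card with hgdef
    rw [hD] at h6
    nlinarith [Nat.mul_le_mul_left (j + 1) hg.le, Nat.mul_le_mul_left ((j + 1) ^ 2) (Nat.succ_le_of_lt hg)]
  obtain ⟨v, hvF, hv⟩ := hex
  obtain ⟨hvG, hTv⟩ := (hF _ _).1 hvF
  simp only [Finset.mem_union, Finset.mem_singleton, not_or] at hv
  obtain ⟨⟨⟨v1, v2⟩, v3⟩, v4⟩ := hv
  refine ⟨u, huG, v, hvG, fun h => v1 h.symm, fun h => v2 ?_, fun h => v3 ?_, fun c hc => ?_⟩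
  · exact Finset.mem_filter.2 ⟨hvF, h⟩
  · exact (hF _ _).2 ⟨hvG, Finset.insert_subset h hTv⟩
  · by_contra hno
    have hor : ∀ i < k - 1, sh i c ∈ E u ∨ sh i c ∈ E v := by
      intro i hi
      by_contra h1
      rw [not_or] at h1
      exact hno ⟨i, hi, h1.1, h1.2⟩
    obtain ⟨i0, hi0, hn0⟩ := hfull v hvG c hc
    have he : sh i0 c ∈ E u := (hor i0 hi0).resolve_right hn0
    obtain ⟨i1, hi1, hn1⟩ := hfull u huG c hc
    have hv1 : sh i1 c ∈ E v := (hor i1 hi1).resolve_left hn1
    have hr : rest (sh i0 c) = c := rest_sh i0 c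
    refine v4 (Finset.mem_biUnion.2 ⟨(sh i0 c, i1), ?_, ?_⟩)
    · refine Finset.mem_filter.2 ⟨Finset.mem_product.2 ⟨he, Finset.mem_range.2 hi1⟩, ?_⟩
      simp only [hr]
      exact fun h => hn1 (hTu h)
    · simp only [hr]
      exact (hF _ _).2 ⟨hvG, Finset.insert_subset hv1 hTv⟩

end Pool.Agent.Helper5.BG
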