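import Pool.Agent.Helper5.BG.Pair

/-!
Project BG (MP_4a5e7e_lc): the pigeonhole principle.
-/

namespace Pool.Agent.Helper5.BG

open Pool.Agent.Helper21.BX

/-- All strings of length less than `m`. -/
def short (m : ℕ) : Finset S := ((List.range m).flatMap allB).toFinset

/-- `mem_allB` (Helper21/BX/Vs.lean). -/
theorem mem_short {m : ℕ} {q : S} : q ∈ short m ↔ q.length < m := by
  unfold short
  rw [List.mem_toFinset, List.mem_flatMap]
  constructor
  · rintro ⟨i, hi, hq⟩
    rw [List.mem_range] at hi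
    rw [mem_allB] at hq
    omega
  · intro h
    exact ⟨q.length, List.mem_range.2 h, mem_allB.2 rfl⟩

private theorem pig_len (m : ℕ) : (allB m).length = 2 ^ m := by
  induction m with
  | zero => rfl
  | succ m ih =>
    rw [allB, List.length_flatMap]
    simp only [List.length_cons, List.length_nil, List.map_const', List.sum_replicate, ih, smul_eq_mul]
    rw [pow_succ]

private theorem pig_sum (m : ℕ) : ((List.range m).flatMap allB).length ≤ 2 ^ m := by
  induction m with
  | zero => simp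
  | succ m ih =>
    rw [List.range_succ, List.flatMap_append, List.length_append, List.flatMap_singleton, pig_len, pow_succ]
    omega

/-- `(allB i).length = 2 ^ i`, `∑_{i < m} 2 ^ i < 2 ^ m`. -/
theorem short_card (m : ℕ) : (short m).card ≤ 2 ^ m := by
  unfold short
  exact (List.toFinset_card_le _).trans (pig_sum m)

theorem allB_card (m : ℕ) : (allB m).toFinset.card = 2 ^ m := by
  have h : (allB m).toFinset =
      (Finset.univ : Finset (List.Vector Bool m)).image (fun v => v.toList) := by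
    ext q
    rw [List.mem_toFinset, mem_allB, Finset.mem_image]
    constructor
    · intro hq
      exact ⟨⟨q, hq⟩, Finset.mem_univ _, rfl⟩
    · rintro ⟨v, -, rfl⟩
      exact v.toList_length
  rw [h, Finset.card_image_of_injective _ (fun v w hvw => List.Vector.toList_injective hvw),
    Finset.card_univ, card_vector, Fintype.card_bool]

/-- Numbers: `2 ≤ 2 ^ (n + k + 2)`, so the left side is at most `2 ^ (1 + 2 ^ k + k * (n + k + 3) + b)`. -/
theorem pig_num (k b : ℕ) : ∃ n₀ : ℕ, ∀ n, n₀ ≤ n →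
    2 * 2 ^ 2 ^ k * (2 + 2 ^ (n + k + 2)) ^ k * b < 2 ^ n ^ 2 := by
  refine ⟨1 + 2 ^ k + (k + 3) * k + b + k, fun n hn => ?_⟩
  have h1 : 2 + 2 ^ (n + k + 2) ≤ 2 ^ (n + k + 3) := by
    have h2 : 2 ^ 1 ≤ 2 ^ (n + k + 2) := Nat.pow_le_pow_right (by norm_num) (by omega)
    have h3 : 2 ^ (n + k + 3) = 2 ^ (n + k + 2) * 2 := pow_succ _ _
    omega
  have h2 : (2 + 2 ^ (n + k + 2)) ^ k ≤ 2 ^ ((n + k + 3) * k) := by
    rw [pow_mul]
    exact Nat.pow_le_pow_left h1 k
  have h3 : b < 2 ^ b := Nat.lt_two_pow_self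
  have h4 : 1 + 2 ^ k + (n + k + 3) * k + b ≤ n ^ 2 := by
    have h5 : n * (1 + 2 ^ k + (k + 3) * k + b + k) ≤ n * n := Nat.mul_le_mul_left n hn
    have h6 : 1 ≤ n := by
      have h0 : 0 ≤ 2 ^ k + (k + 3) * k + b + k := Nat.zero_le _
      linarith
    have h7 : 1 * (1 + 2 ^ k + (k + 3) * k + b) ≤ n * (1 + 2 ^ k + (k + 3) * k + b) :=
      Nat.mul_le_mul_right _ h6
    nlinarith
  calc 2 * 2 ^ 2 ^ k * (2 + 2 ^ (n + k + 2)) ^ k * b
      < 2 * 2 ^ 2 ^ k * (2 + 2 ^ (n + k + 2)) ^ k * 2 ^ b :=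
        Nat.mul_lt_mul_of_pos_left h3 (by positivity)
    _ ≤ 2 * 2 ^ 2 ^ k * 2 ^ ((n + k + 3) * k) * 2 ^ b :=
        Nat.mul_le_mul_right _ (Nat.mul_le_mul_left _ h2)
    _ = 2 ^ (1 + 2 ^ k + (n + k + 3) * k + b) := by
        rw [pow_add, pow_add, pow_add, pow_one]
    _ ≤ 2 ^ n ^ 2 := Nat.pow_le_pow_right (by norm_num) h4

/-- `Finset.exists_lt_card_fiber_of_mul_lt_card_of_maps_to` for the set `(allB (n ^ 2)).toFinset` and the product of
`Finset.univ`, `Finset.univ` and `Fintype.piFinset` of the set of all `Sum.inl v` and all `Sum.inr q` with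
`q ∈ short (n + k + 2)` (`Finset.disjSum Finset.univ (short (n + k + 2))`). -/
theorem exists_class (k : ℕ) : ∃ n₀ : ℕ, ∀ n, n₀ ≤ n →
    ∀ σ : S → Bool × ((Fin k → Bool) → Bool) × (Fin k → Bool ⊕ S),
      (∀ u, u.length = n ^ 2 → ∀ j q, (σ u).2.2 j = Sum.inr q → q.length < n + k + 2) →
      ∃ G : Finset S, BB k < G.card ∧ (∀ u ∈ G, u.length = n ^ 2) ∧ ∃ s, ∀ u ∈ G, σ u = s := by
  classical
  obtain ⟨n₀, hn₀⟩ := pig_num k (BB k)
  refine ⟨n₀, fun n hn σ hσ => ?_⟩
  have hnum := hn₀ n hn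
  let T : Finset (Bool × ((Fin k → Bool) → Bool) × (Fin k → Bool ⊕ S)) :=
    Finset.univ ×ˢ (Finset.univ ×ˢ
      (Fintype.piFinset (fun _ : Fin k => Finset.disjSum Finset.univ (short (n + k + 2)))))
  have hT : T.card ≤ 2 * 2 ^ 2 ^ k * (2 + 2 ^ (n + k + 2)) ^ k := by
    have h1 : T.card = 2 * (2 ^ 2 ^ k * (2 + (short (n + k + 2)).card) ^ k) := by
      simp only [T, Finset.card_product, Fintype.card_piFinset, Finset.card_disjSum,
        Finset.card_univ, Fintype.card_bool, Finset.prod_const, Fintype.card_fin,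
        Fintype.card_fun]
    rw [h1, mul_assoc]
    exact Nat.mul_le_mul_left _ (Nat.mul_le_mul_left _
      (Nat.pow_le_pow_left (Nat.add_le_add_left (short_card _) 2) k))
  have hmaps : ∀ u ∈ (allB (n ^ 2)).toFinset, σ u ∈ T := by
    intro u hu
    rw [List.mem_toFinset, mem_allB] at hu
    simp only [T, Finset.mem_product, Finset.mem_univ, true_and, Fintype.mem_piFinset]
    intro j
    rw [Finset.mem_disjSum]
    cases hj : (σ u).2.2 j with
    | inl v => exact Or.inl ⟨v, Finset.mem_univ _, rfl⟩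
    | inr q => exact Or.inr ⟨q, mem_short.2 (hσ u hu j q hj), rfl⟩
  have hlt : T.card * BB k < ((allB (n ^ 2)).toFinset).card := by
    rw [allB_card]
    exact lt_of_le_of_lt (Nat.mul_le_mul_right _ hT) hnum
  obtain ⟨y, -, hy⟩ := Finset.exists_lt_card_fiber_of_mul_lt_card_of_maps_to hmaps hlt
  refine ⟨_, hy, ?_, y, ?_⟩
  · intro u hu
    rw [Finset.mem_filter, List.mem_toFinset, mem_allB] at hu
    exact hu.1
  · intro u hu
    rw [Finset.mem_filter] at hu
    exact hu.2

end Pool.Agent.Helper5.BG
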