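import Pool.Agent.Helper5.BG.Basic

/-!
Project BG (MP_4a5e7e_lc): from the data of a plan to the string of the plan.
-/

namespace Pool.Agent.Helper5.BG

open Pool.Agent.Helper21.BX

private theorem sel_true {α : Type} (bs : List Bool) (r : α) (l : List α) :
    sel (true :: bs) (r :: l) = r :: sel bs l := by
  simp [sel]

private theorem sel_false {α : Type} (bs : List Bool) (r : α) (l : List α) :
    sel (false :: bs) (r :: l) = sel bs l := by
  simp [sel]

/-- Induction on `l`: mark the first occurrence of `z`. -/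
theorem exists_pick {l : List S} {z : S} (h : z ∈ l) :
    ∃ bs : List Bool, bs.length = l.length ∧ pick bs l = z := by
  induction l with
  | nil => exact absurd h List.not_mem_nil
  | cons r l ih =>
    rcases List.mem_cons.1 h with rfl | h
    · refine ⟨true :: List.replicate l.length false, by simp, ?_⟩
      unfold pick
      rw [sel_true]
      rfl
    · obtain ⟨bs, h1, h2⟩ := ih h
      refine ⟨false :: bs, by simp [h1], ?_⟩
      unfold pick
      rw [sel_false]
      exact h2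

/-- `bs = l.map P`; induction on `l`. -/
theorem exists_sel (l : List S) (P : S → Bool) :
    ∃ bs : List Bool, bs.length = l.length ∧ sel bs l = l.filter P := by
  refine ⟨l.map P, List.length_map _, ?_⟩
  induction l with
  | nil => rfl
  | cons r l ih =>
    rw [List.map_cons]
    cases hr : P r with
    | true => rw [sel_true, ih, List.filter_cons_of_pos hr]
    | false => rw [sel_false, ih, List.filter_cons_of_neg (by simp [hr])]

/-- `w = u ++ (u2 ++ (b :: (z₁ ++ (z₂ ++ (l₁ ++ l₂)))))` with `z₁`, `z₂` (of length `k`) from `exists_pick` for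
`M.qs (fre u)`, `M.qs (fre u2)`, with `l₁` (of length `RR k`) from `exists_sel` and `l₂` (of length `RR k`) from
`exists_pick` for the list of the relevant strings (any string of length `RR k` if `mode = true`). -/
theorem exists_w {k n : ℕ} {M : Mac} (hq : ∀ q, (M.qs q).length = k) {u u2 z z2 : S}
    (hu : u.length = n ^ 2) (hu2 : u2.length = n ^ 2) (hz : z ∈ M.qs (fre u))
    (hz2 : z2 ∈ M.qs (fre u2)) (mode b : Bool) (P : S → Bool) (key : S)
    (hkey : mode = true ∨ key ∈ [fre u, fre u2, z, z2] ++ [fre u, fre u2, z, z2].flatMap M.qs) :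
    ∃ w : S, w.length = WW k n ∧ pY n w = fre u ∧ pY2 n w = fre u2 ∧ pB n w = b ∧
      pZ M k n w = z ∧ pZ2 M k n w = z2 ∧
      pL M k n w = ([fre u, fre u2, z, z2] ++ [fre u, fre u2, z, z2].flatMap M.qs).filter P ∧
      (mode = true ∨ pK M k n w = key) := by
  set R : List S := [fre u, fre u2, z, z2] ++ [fre u, fre u2, z, z2].flatMap M.qs with hR
  have hRl : R.length = RR k := by
    rw [hR]
    simp only [List.length_append, List.length_cons, List.length_nil,
      List.flatMap_cons, List.flatMap_nil, hq]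
    unfold RR
    omega
  obtain ⟨z₁, hz1, hp1⟩ := exists_pick hz
  obtain ⟨z₂, hz2', hp2⟩ := exists_pick hz2
  rw [hq] at hz1 hz2'
  obtain ⟨l₁, hl1, hs1⟩ := exists_sel R P
  rw [hRl] at hl1
  obtain ⟨l₂, hl2, hp3⟩ : ∃ l₂ : List Bool, l₂.length = RR k ∧
      (mode = true ∨ pick l₂ R = key) := by
    rcases hkey with h | h
    · exact ⟨List.replicate (RR k) false, List.length_replicate, Or.inl h⟩
    · obtain ⟨bs, h1, h2⟩ := exists_pick h
      exact ⟨bs, by rw [h1, hRl], Or.inr h2⟩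
  have e1 : (u ++ (u2 ++ (b :: (z₁ ++ (z₂ ++ (l₁ ++ l₂)))))).take (n ^ 2) = u :=
    List.take_left' hu
  have e2 : (u ++ (u2 ++ (b :: (z₁ ++ (z₂ ++ (l₁ ++ l₂)))))).drop (n ^ 2) =
      u2 ++ (b :: (z₁ ++ (z₂ ++ (l₁ ++ l₂)))) := List.drop_left' hu
  have e3 : (u2 ++ (b :: (z₁ ++ (z₂ ++ (l₁ ++ l₂))))).take (n ^ 2) = u2 :=
    List.take_left' hu2
  have e4 : (u2 ++ (b :: (z₁ ++ (z₂ ++ (l₁ ++ l₂))))).drop (n ^ 2) =
      b :: (z₁ ++ (z₂ ++ (l₁ ++ l₂))) := List.drop_left' hu2
  have hY : pY n (u ++ (u2 ++ (b :: (z₁ ++ (z₂ ++ (l₁ ++ l₂)))))) = fre u := by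
    unfold pY
    rw [e1]
  have hY2 : pY2 n (u ++ (u2 ++ (b :: (z₁ ++ (z₂ ++ (l₁ ++ l₂)))))) = fre u2 := by
    unfold pY2
    rw [e2, e3]
  have hD : pD n (u ++ (u2 ++ (b :: (z₁ ++ (z₂ ++ (l₁ ++ l₂)))))) =
      b :: (z₁ ++ (z₂ ++ (l₁ ++ l₂))) := by
    unfold pD
    rw [show 2 * n ^ 2 = n ^ 2 + n ^ 2 from by ring, ← List.drop_drop, e2, e4]
  have d1 : (b :: (z₁ ++ (z₂ ++ (l₁ ++ l₂)))).drop 1 = z₁ ++ (z₂ ++ (l₁ ++ l₂)) := rfl
  have d2 : (b :: (z₁ ++ (z₂ ++ (l₁ ++ l₂)))).drop (1 + k) = z₂ ++ (l₁ ++ l₂) := by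
    rw [← List.drop_drop, d1]
    exact List.drop_left' hz1
  have d3 : (b :: (z₁ ++ (z₂ ++ (l₁ ++ l₂)))).drop (1 + 2 * k) = l₁ ++ l₂ := by
    rw [show 1 + 2 * k = 1 + k + k from by ring, ← List.drop_drop, d2]
    exact List.drop_left' hz2'
  have d4 : (b :: (z₁ ++ (z₂ ++ (l₁ ++ l₂)))).drop (1 + 2 * k + RR k) = l₂ := by
    rw [← List.drop_drop, d3]
    exact List.drop_left' hl1
  have hZ : pZ M k n (u ++ (u2 ++ (b :: (z₁ ++ (z₂ ++ (l₁ ++ l₂)))))) = z := by
    unfold pZ
    rw [hD, d1, hY, List.take_left' hz1, hp1]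
  have hZ2 : pZ2 M k n (u ++ (u2 ++ (b :: (z₁ ++ (z₂ ++ (l₁ ++ l₂)))))) = z2 := by
    unfold pZ2
    rw [hD, d2, hY2, List.take_left' hz2', hp2]
  have hrel : rel M k n (u ++ (u2 ++ (b :: (z₁ ++ (z₂ ++ (l₁ ++ l₂)))))) = R := by
    unfold rel tgt
    rw [hY, hY2, hZ, hZ2]
  refine ⟨u ++ (u2 ++ (b :: (z₁ ++ (z₂ ++ (l₁ ++ l₂))))), ?_, hY, hY2, ?_, hZ, hZ2, ?_, ?_⟩
  · simp only [List.length_append, List.length_cons, hu, hu2, hz1, hz2', hl1, hl2]
    unfold WW
    ring
  · unfold pB
    rw [hD]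
    rfl
  · unfold pL
    rw [hrel, hD, d3, List.take_left' hl1, hs1]
  · rcases hp3 with h | h
    · exact Or.inl h
    · right
      unfold pK
      rw [hrel, hD, d4, List.take_of_length_le hl2.le, h]

private theorem Real2_key {k n τ a : ℕ} {mode : Bool} {low : S → Bool} {key key' : S} {b : Bool}
    {P X : S → Bool} {q : S} (h : mode = true ∨ key' = key) :
    evQ k n τ a mode low key' b P X q = evQ k n τ a mode low key b P X q := by
  rcases h with h | h
  · subst h
    rfl
  · rw [h]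

private theorem Real2_vio {M : Mac} {e e' : S → Bool} {t : S} (h : e t = e' t)
    (h' : ∀ q ∈ M.qs t, e q = e' q) : vio M e t = vio M e' t := by
  unfold vio
  rw [h]
  congr 2
  refine List.map_congr_left fun q hq => ?_
  rw [h' q hq]

/-- `exists_w`, `ev_eq_evQ`. In mode `true` the key does not matter for `evQ`. -/
theorem realize {k n τ a : ℕ} {M : Mac} {low : S → Bool} (hq : ∀ q, (M.qs q).length = k)
    {u u2 z z2 : S} (hu : u.length = n ^ 2) (hu2 : u2.length = n ^ 2) (hz : z ∈ M.qs (fre u))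
    (hz2 : z2 ∈ M.qs (fre u2)) (mode b : Bool) (P : S → Bool) (key : S)
    (hkey : mode = true ∨ (keyable k n a key = true ∧
      key ∈ [fre u, fre u2, z, z2] ++ [fre u, fre u2, z, z2].flatMap M.qs))
    (hleg : ∀ c, InI n τ c → ∃ i < (if b then k - 2 else k - 1), P (sh i c) = false)
    (hvio : ∀ X : S → Bool, ∃ t ∈ [fre u, fre u2, z, z2],
      vio M (evQ k n τ a mode low key b P X) t = true) :
    ∃ w : S, w.length = WW k n ∧ val M k n τ a mode low w = true := by
  obtain ⟨w, hw, h1, h2, hB, h3, h4, hL, hK⟩ := exists_w hq hu hu2 hz hz2 mode b P key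
    (hkey.imp id And.right)
  have htgt : tgt M k n w = [fre u, fre u2, z, z2] := by
    unfold tgt
    rw [h1, h2, h3, h4]
  have hrel : rel M k n w = [fre u, fre u2, z, z2] ++ [fre u, fre u2, z, z2].flatMap M.qs := by
    unfold rel
    rw [htgt]
  have hev : ∀ (X : S → Bool), ∀ q ∈ rel M k n w,
      evP M k n τ a mode low w X q = evQ k n τ a mode low key b P X q := by
    intro X q hqr
    unfold evP
    rw [hB, hL, ← hrel, ev_eq_evQ (P := P) (by
      rw [List.mem_filter]
      exact ⟨fun h => h.2, fun h => ⟨hqr, h⟩⟩)]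
    exact Real2_key hK
  refine ⟨w, hw, ?_⟩
  unfold val
  rw [Bool.and_eq_true, Bool.and_eq_true]
  refine ⟨⟨?_, ?_⟩, ?_⟩
  · unfold legit
    rw [List.all_eq_true]
    intro r _
    by_cases hr : (isSh k r && inI n τ r) = true
    · rw [hr]
      rw [Bool.and_eq_true] at hr
      obtain ⟨i, c, _, rfl⟩ := isSh_iff.1 hr.1
      obtain ⟨j, hj, hPj⟩ := hleg c (inI_sh.1 hr.2)
      rw [Bool.not_true, Bool.false_or, Bool.not_eq_true', Bool.eq_false_iff]
      intro hall
      rw [List.all_eq_true] at hall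
      have h5 := hall j (by
        rw [List.mem_range, hB]
        exact hj)
      rw [rest_sh, decide_eq_true_eq, hL, List.mem_filter, hPj] at h5
      exact absurd h5.2 (by simp)
    · rw [Bool.not_eq_true] at hr
      rw [hr]
      rfl
  · rcases hkey with h | h
    · rw [h]
      rfl
    · rcases hK with hm | hk
      · rw [hm]
        rfl
      · rw [Bool.or_eq_true]
        right
        have h6 : keyok M k n a w = keyable k n a (pK M k n w) := rfl
        rw [h6, hk]
        exact h.1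
  · rw [List.all_eq_true]
    intro xs _
    obtain ⟨t, ht, hv⟩ := hvio
      (fun p => decide (p ∈ sel xs ((rel M k n w).map (atm k n τ))))
    rw [List.any_eq_true]
    refine ⟨t, by rw [htgt]; exact ht, ?_⟩
    rw [← hv]
    refine Real2_vio (hev _ t ?_) fun q hq' => hev _ q ?_
    · rw [hrel]
      exact List.mem_append_left _ ht
    · rw [hrel]
      exact List.mem_append_right _ (List.mem_flatMap.2 ⟨t, ht, hq'⟩)

/-- There is a plan. -/
def HasPlan (M : Mac) (k n τ a : ℕ) (low : S → Bool) : Prop :=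
  ∃ w : S, w.length = WW k n ∧
    (val M k n τ a false (fun _ => false) w = true ∨ val M k n τ a true low w = true)

theorem hasPlan_of {k n τ a : ℕ} {M : Mac} {low : S → Bool} (hq : ∀ q, (M.qs q).length = k)
    {u u2 z z2 : S} (hu : u.length = n ^ 2) (hu2 : u2.length = n ^ 2) (hz : z ∈ M.qs (fre u))
    (hz2 : z2 ∈ M.qs (fre u2)) (mode b : Bool) (P : S → Bool) (key : S)
    (hkey : mode = true ∨ (keyable k n a key = true ∧
      key ∈ [fre u, fre u2, z, z2] ++ [fre u, fre u2, z, z2].flatMap M.qs))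
    (hleg : ∀ c, InI n τ c → ∃ i < (if b then k - 2 else k - 1), P (sh i c) = false)
    (hvio : ∀ X : S → Bool, ∃ t ∈ [fre u, fre u2, z, z2],
      vio M (evQ k n τ a mode low key b P X) t = true) :
    HasPlan M k n τ a low := by
  cases mode with
  | true =>
    obtain ⟨w, h1, h2⟩ := realize hq hu hu2 hz hz2 true b P key hkey hleg hvio
    exact ⟨w, h1, Or.inr h2⟩
  | false =>
    obtain ⟨w, h1, h2⟩ := realize (low := fun _ => false) hq hu hu2 hz hz2 false b P key hkey
      hleg (fun X => hvio X)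
    exact ⟨w, h1, Or.inl h2⟩

end Pool.Agent.Helper5.BG
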