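import Pool.Agent.Helper5.BG.One
import Pool.Agent.Helper5.BG.Pig

/-!
Project BG (MP_4a5e7e_lc): plans with two targets of the same signature.
-/

namespace Pool.Agent.Helper5.BG

open Pool.Agent.Helper21.BX

theorem length_of_low {k n : ℕ} {q : S} (hc : isCod k q = true) (hl : lev q < n) :
    q.length < n + k + 2 := by
  unfold lev at hl
  by_cases h1 : 1 ≤ lead q
  · rw [if_pos h1] at hl
    have hs : isSh k q = true := by
      refine isSh_of_cod hc ?_ ?_
      · intro hm
        rw [eq_msk hm] at h1
        simp [msk, lead] at h1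
      · intro hf
        unfold isFre at hf
        have hf' := of_decide_eq_true hf
        cases q with
        | nil => simp at hf'
        | cons b q =>
          cases b with
          | false => simp [lead] at h1
          | true => simp at hf'
    unfold isSh at hs
    simp only [Bool.and_eq_true, decide_eq_true_eq] at hs
    have h2 : (rest q).length = q.length - (lead q + 1) := by
      unfold rest
      rw [List.length_drop]
    rw [h2] at hl
    omega
  · rw [if_neg h1] at hl
    omega

/-- The class of a query: its value, or the string itself if it is a low string. -/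
def cls (k n τ : ℕ) (M : Mac) (t y : S) (v : Bool) (q : S) : Bool ⊕ S :=
  if M.side q ≠ M.side t ∧ isCod k q = true then
    (if inI n τ q = true then
      (if isSh k q = true then Sum.inl true else if q = y then Sum.inl v else Sum.inl false)
    else if lev q < n then Sum.inr q else Sum.inl false)
  else Sum.inl false

/-- The table as a function of the answers. -/
def tf (k : ℕ) (M : Mac) (t : S) (f : Fin k → Bool) : Bool := tbl (M.tab t) (List.ofFn f)

theorem map_ofFn {k : ℕ} {l : List S} (h : l.length = k) (F : S → Bool) :
    l.map F = List.ofFn (fun j : Fin k => F (l.getD j [])) := by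
  apply List.ext_getElem
  · simp [h]
  · intro i h1 h2
    rw [List.length_map] at h1
    simp [List.getElem?_eq_getElem h1]

theorem getD_mem {k : ℕ} {l : List S} (h : l.length = k) (j : Fin k) : l.getD j [] ∈ l := by
  have h1 : (j : ℕ) < l.length := by
    rw [h]
    exact j.2
  rw [List.getD_eq_getElem _ _ h1]
  exact List.getElem_mem h1

theorem cls_low {k n τ : ℕ} {M : Mac} {t y : S} {v : Bool} {q p : S}
    (h : cls k n τ M t y v q = Sum.inr p) : p.length < n + k + 2 := by
  unfold cls at h
  split_ifs at h with h1 h2 h3 h4 h5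
  · have e := Sum.inr.inj h
    rw [← e]
    exact length_of_low h1.2 h5

/-- The conditions under which the classes give the values. -/
theorem cls_val {k n τ a : ℕ} {M : Mac} {low X : S → Bool} {kk : S} {P : S → Bool} {t u : S}
    {v : Bool} {q : S} (hl : lev q ≤ τ)
    (h1 : M.side q ≠ M.side t → isSh k q = true → inI n τ q = true → P q = true)
    (h2 : M.side q ≠ M.side t → isFre q = true → P q = (decide (q = fre u) && v)) :
    ((M.side q != M.side t) && evQ k n τ a true low kk false P X q) =
      Sum.elim id (evQ k n τ a true low kk false P X) (cls k n τ M t (fre u) v q) := by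
  by_cases hs : M.side q = M.side t
  · have e : cls k n τ M t (fre u) v q = Sum.inl false := by
      unfold cls
      rw [if_neg]
      rintro ⟨h, -⟩
      exact h hs
    rw [e]
    simp [hs]
  · have hs' : (M.side q != M.side t) = true := bne_iff_ne.2 hs
    rw [hs', Bool.true_and]
    by_cases hc : isCod k q = true
    · by_cases hi : inI n τ q = true
      · by_cases hS : isSh k q = true
        · have e : cls k n τ M t (fre u) v q = Sum.inl true := by
            unfold cls
            rw [if_pos ⟨hs, hc⟩, if_pos hi, if_pos hS]
          rw [e]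
          obtain ⟨i, c, hic, rfl⟩ := isSh_iff.1 hS
          rw [evQ_sh hic (inI_sh.1 hi), h1 hs hS hi]
          simp
        · have e : cls k n τ M t (fre u) v q = Sum.inl (decide (q = fre u) && v) := by
            unfold cls
            rw [if_pos ⟨hs, hc⟩, if_pos hi, if_neg hS]
            by_cases hq : q = fre u
            · rw [if_pos hq, decide_eq_true hq, Bool.true_and]
            · rw [if_neg hq, decide_eq_false hq, Bool.false_and]
          rw [e]
          unfold evQ
          rw [if_pos hc, if_pos hi]
          by_cases hM : isMsk q = true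
          · rw [if_pos hM]
            have hq : q ≠ fre u := by
              rintro rfl
              rw [isMsk_fre] at hM
              exact absurd hM (by simp)
            rw [decide_eq_false hq]
            simp
          · rw [if_neg hM]
            have hF : isFre q = true := by
              by_contra hF
              exact hS (isSh_of_cod hc hM hF)
            rw [if_pos hF, h2 hs hF]
            simp
      · have hl' : lev q < n := by
          by_contra h3
          apply hi
          unfold inI
          simp only [Bool.and_eq_true, decide_eq_true_eq]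
          omega
        have e : cls k n τ M t (fre u) v q = Sum.inr q := by
          unfold cls
          rw [if_pos ⟨hs, hc⟩, if_neg hi, if_pos hl']
        rw [e]
        rfl
    · have e : cls k n τ M t (fre u) v q = Sum.inl false := by
        unfold cls
        rw [if_neg]
        rintro ⟨-, h⟩
        exact hc h
      rw [e]
      unfold evQ
      rw [if_neg hc]
      rfl

/-- Targets with the same signature get the same answer. -/
theorem resp_eq {k n τ a : ℕ} {M : Mac} (hq : ∀ q, (M.qs q).length = k) {low X : S → Bool} {kk : S}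
    {P : S → Bool} {t t' u u' : S} {v v' : Bool} (ht : tf k M t = tf k M t')
    (hc : ∀ j : Fin k, cls k n τ M t (fre u) v ((M.qs t).getD j []) =
      cls k n τ M t' (fre u') v' ((M.qs t').getD j []))
    (hl : ∀ q ∈ M.qs t, lev q ≤ τ) (hl' : ∀ q ∈ M.qs t', lev q ≤ τ)
    (h1 : ∀ q ∈ Es M t, isSh k q = true → inI n τ q = true → P q = true)
    (h2 : ∀ q ∈ Es M t, isFre q = true → P q = (decide (q = fre u) && v))
    (h1' : ∀ q ∈ Es M t', isSh k q = true → inI n τ q = true → P q = true)
    (h2' : ∀ q ∈ Es M t', isFre q = true → P q = (decide (q = fre u') && v')) :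
    resp M (evQ k n τ a true low kk false P X) t = resp M (evQ k n τ a true low kk false P X) t' := by
  unfold resp
  rw [map_ofFn (hq t), map_ofFn (hq t')]
  have e1 := congrFun ht (fun j : Fin k => (M.side ((M.qs t).getD j []) != M.side t) &&
    evQ k n τ a true low kk false P X ((M.qs t).getD j []))
  unfold tf at e1
  rw [e1]
  congr 2
  funext j
  have m1 := getD_mem (hq t) j
  have m2 := getD_mem (hq t') j
  rw [cls_val (low := low) (a := a) (X := X) (kk := kk) (u := u) (v := v) (hl _ m1)
      (fun hs => h1 _ (mem_Es.2 ⟨m1, hs⟩)) (fun hs => h2 _ (mem_Es.2 ⟨m1, hs⟩)),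
    cls_val (low := low) (a := a) (X := X) (kk := kk) (u := u') (v := v') (hl' _ m2)
      (fun hs => h1' _ (mem_Es.2 ⟨m2, hs⟩)) (fun hs => h2' _ (mem_Es.2 ⟨m2, hs⟩)), hc j]

section

variable {k n τ a : ℕ} {M : Mac} {low : S → Bool}

/-- (B1): two free strings with the same signature. -/
theorem plan_B1 (hk : 4 ≤ k) (hτ : n ^ 2 ≤ τ) (hq : ∀ q, (M.qs q).length = k)
    (hlev : ∀ u : S, u.length = n ^ 2 → ∀ q ∈ M.qs (fre u), lev q ≤ τ ∧ ∀ q' ∈ M.qs q, lev q' ≤ τ)
    {u u' : S} (hu : u.length = n ^ 2) (hu' : u'.length = n ^ 2) (hne : u ≠ u')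
    (ht : tf k M (fre u) = tf k M (fre u'))
    (hc : ∀ j : Fin k, cls k n τ M (fre u) (fre u) false ((M.qs (fre u)).getD j []) =
      cls k n τ M (fre u') (fre u') false ((M.qs (fre u')).getD j []))
    (h1 : fre u' ∉ Es M (fre u))
    (h3 : ∀ c, InI n τ c → ∃ i < k - 1, sh i c ∉ Es M (fre u) ∧ sh i c ∉ Es M (fre u')) :
    HasPlan M k n τ a low := by
  classical
  set P : S → Bool := fun q => (isSh k q && decide (q ∈ Es M (fre u) ∪ Es M (fre u'))) ||
    decide (q = fre u') with hP
  have hPf : ∀ q, isFre q = true → P q = decide (q = fre u') := by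
    intro q hF
    have : isSh k q = false := by
      cases hS : isSh k q with
      | false => rfl
      | true =>
        obtain ⟨i, c, -, rfl⟩ := isSh_iff.1 hS
        rw [isFre_sh] at hF
        exact absurd hF (by simp)
    simp [hP, this]
  have hPs : ∀ q, isSh k q = true → q ∈ Es M (fre u) ∪ Es M (fre u') → P q = true := by
    intro q hS hm
    simp only [hP, hS, decide_eq_true hm, Bool.true_and, Bool.true_or]
  obtain ⟨z, hz⟩ := exists_qs (M := M) (by omega) hq (fre u)
  obtain ⟨z', hz'⟩ := exists_qs (M := M) (by omega) hq (fre u')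
  refine hasPlan_of hq hu hu' hz hz' true false P [] (Or.inl rfl) (fun d hd => ?_) (fun X => ?_)
  · obtain ⟨i, hi, h4, h5⟩ := h3 d hd
    refine ⟨i, by simpa using hi, ?_⟩
    have h6 : ¬ sh i d ∈ Es M (fre u) ∪ Es M (fre u') := by
      rw [Finset.mem_union]
      rintro (h | h)
      · exact h4 h
      · exact h5 h
    simp only [hP, decide_eq_false h6, Bool.and_false, Bool.false_or]
    exact decide_eq_false sh_ne_fre
  · have hr : resp M (evQ k n τ a true low [] false P X) (fre u) =
        resp M (evQ k n τ a true low [] false P X) (fre u') := by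
      refine resp_eq hq (u := u) (u' := u') (v := false) (v' := false) ht hc
        (fun q h => (hlev u hu q h).1) (fun q h => (hlev u' hu' q h).1)
        (fun q h hS _ => hPs q hS (Finset.mem_union_left _ h)) (fun q h hF => ?_)
        (fun q h hS _ => hPs q hS (Finset.mem_union_right _ h)) (fun q h hF => ?_)
      · rw [hPf q hF, Bool.and_false]
        refine decide_eq_false ?_
        rintro rfl
        exact h1 h
      · rw [hPf q hF, Bool.and_false]
        refine decide_eq_false ?_
        rintro rfl
        exact (mem_Es.1 h).2 rfl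
    have e1 : evQ k n τ a true low [] false P X (fre u) = false := by
      rw [evQ_fre (by rw [hu]; exact n_le_sq n) (by rw [hu]; exact hτ), hPf _ (isFre_fre u)]
      exact decide_eq_false fun h => hne (fre_inj h)
    have e2 : evQ k n τ a true low [] false P X (fre u') = true := by
      rw [evQ_fre (by rw [hu']; exact n_le_sq n) (by rw [hu']; exact hτ), hPf _ (isFre_fre u')]
      exact decide_eq_true rfl
    cases hv : resp M (evQ k n τ a true low [] false P X) (fre u) with
    | true =>
      refine ⟨fre u, by simp, ?_⟩
      rw [vio_iff, e1, hv]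
      simp
    | false =>
      refine ⟨fre u', by simp, ?_⟩
      rw [vio_iff, e2, ← hr, hv]
      simp

/-- (B2), two free strings that reveal the same instance. -/
theorem plan_B2a (hk : 4 ≤ k) (hτ : n ^ 2 ≤ τ) (hq : ∀ q, (M.qs q).length = k)
    {u u' c : S} {r r' : Bool} (hu : u.length = n ^ 2) (hu' : u'.length = n ^ 2) (hne : u ≠ u')
    (hC : Cond k n τ a M u c r) (hC' : Cond k n τ a M u' c r') : HasPlan M k n τ a low := by
  set P : S → Bool := fun q => (decide (q = fre u) && !r) || (decide (q = fre u') && r') with hP
  obtain ⟨z, hz⟩ := exists_qs (M := M) (by omega) hq (fre u)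
  obtain ⟨z', hz'⟩ := exists_qs (M := M) (by omega) hq (fre u')
  have hPs : ∀ i d, P (sh i d) = false := by
    intro i d
    simp [hP, sh_ne_fre]
  refine hasPlan_of hq hu hu' hz hz' true false P [] (Or.inl rfl)
    (fun d _ => ⟨0, by simp; omega, hPs 0 d⟩) (fun X => ?_)
  have hne' : fre u ≠ fre u' := fun h => hne (fre_inj h)
  cases hX : X (sh 0 c) with
  | true =>
    refine ⟨fre u, by simp, ?_⟩
    rw [vio_iff, evQ_fre (by rw [hu]; exact n_le_sq n) (by rw [hu]; exact hτ),
      hC.2.2 _ _ _ P X ⟨0, by omega, hPs 0 c⟩, if_pos hX]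
    simp only [hP, decide_eq_false hne', decide_true]
    cases r <;> simp
  | false =>
    refine ⟨fre u', by simp, ?_⟩
    rw [vio_iff, evQ_fre (by rw [hu']; exact n_le_sq n) (by rw [hu']; exact hτ),
      hC'.2.2 _ _ _ P X ⟨0, by omega, hPs 0 c⟩, if_neg (by rw [hX]; simp)]
    simp only [hP, decide_eq_false hne'.symm, decide_true]
    cases r' <;> simp

/-- (B2), two free strings that reveal different instances. -/
theorem plan_B2b (hk : 4 ≤ k) (hτ : n ^ 2 ≤ τ) (hq : ∀ q, (M.qs q).length = k)
    (hlev : ∀ u : S, u.length = n ^ 2 → ∀ q ∈ M.qs (fre u), lev q ≤ τ ∧ ∀ q' ∈ M.qs q, lev q' ≤ τ)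
    {u u' c c' : S} {r r' : Bool} (hu : u.length = n ^ 2) (hu' : u'.length = n ^ 2) (hne : u ≠ u')
    (hC : Cond k n τ a M u c r) (hC' : Cond k n τ a M u' c' r') (hcc : c ≠ c')
    (ht : tf k M (sh (k - 2) c) = tf k M (sh (k - 2) c'))
    (hc : ∀ j : Fin k, cls k n τ M (sh (k - 2) c) (fre u) (!r) ((M.qs (sh (k - 2) c)).getD j []) =
      cls k n τ M (sh (k - 2) c') (fre u') (!r') ((M.qs (sh (k - 2) c')).getD j []))
    (h1 : fre u' ∉ Es M (sh (k - 2) c)) (h2 : fre u ∉ Es M (sh (k - 2) c'))
    (h3 : ∀ d, InI n τ d → ∃ i < k - 1, sh i d ∉ Es M (sh (k - 2) c) ∧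
      sh i d ∉ Es M (sh (k - 2) c')) :
    HasPlan M k n τ a low := by
  classical
  have hzE : sh (k - 2) c ∈ Es M (fre u) := hC.1.2 _ (by omega)
  have hzE' : sh (k - 2) c' ∈ Es M (fre u') := hC'.1.2 _ (by omega)
  set z : S := sh (k - 2) c with hz
  set z' : S := sh (k - 2) c' with hz'
  have hzs : M.side z = M.side (msk n) := side_z hC (by omega)
  have hzs' : M.side z' = M.side (msk n) := side_z hC' (by omega)
  have hout : ∀ q, M.side q = M.side (msk n) → q ∉ Es M z ∪ Es M z' := by
    intro q hs h
    rw [Finset.mem_union] at h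
    rcases h with h | h
    · exact (mem_Es.1 h).2 (hs.trans hzs.symm)
    · exact (mem_Es.1 h).2 (hs.trans hzs'.symm)
  set P : S → Bool := fun q => (isSh k q && decide (q ∈ Es M z ∪ Es M z')) || decide (q = z') ||
    (decide (q = fre u) && !r) || (decide (q = fre u') && !r') with hP
  have hne' : fre u ≠ fre u' := fun h => hne (fre_inj h)
  have hPf : ∀ q, isFre q = true → P q =
      ((decide (q = fre u) && !r) || (decide (q = fre u') && !r')) := by
    intro q hF
    have e1 : isSh k q = false := by
      cases hS : isSh k q with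
      | false => rfl
      | true =>
        obtain ⟨i, d, -, rfl⟩ := isSh_iff.1 hS
        rw [isFre_sh] at hF
        exact absurd hF (by simp)
    have e2 : q ≠ z' := by
      rintro rfl
      rw [hz', isFre_sh] at hF
      exact absurd hF (by simp)
    simp [hP, e1, e2]
  have hPs : ∀ q, isSh k q = true → q ∈ Es M z ∪ Es M z' → P q = true := by
    intro q hS hm
    simp only [hP, hS, decide_eq_true hm, Bool.true_and, Bool.true_or]
  have hPout : ∀ i d, sh i d ∉ Es M z ∪ Es M z' → sh i d ≠ z' → P (sh i d) = false := by
    intro i d h4 h5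
    simp only [hP, decide_eq_false h4, decide_eq_false h5, decide_eq_false (sh_ne_fre (i := i)
      (c := d) (u := u)), decide_eq_false (sh_ne_fre (i := i) (c := d) (u := u')), Bool.and_false,
      Bool.false_and, Bool.or_false]
  have hPc : P (sh 0 c) = false := by
    refine hPout 0 c (hout _ (side_z hC (by omega))) ?_
    intro h
    have := (sh_inj (h.trans hz')).1
    omega
  have hPc' : P (sh 0 c') = false := by
    refine hPout 0 c' (hout _ (side_z hC' (by omega))) ?_
    intro h
    have := (sh_inj (h.trans hz')).1
    omega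
  have hPz : P z = false := by
    rw [hz]
    refine hPout _ c (hout _ (side_z hC (by omega))) ?_
    intro h
    exact hcc (sh_inj (h.trans hz')).2
  have hPz' : P z' = true := by
    simp [hP]
  refine hasPlan_of hq hu hu' (mem_Es.1 hzE).1 (mem_Es.1 hzE').1 true false P [] (Or.inl rfl)
    (fun d hd => ?_) (fun X => ?_)
  · by_cases hdc : d = c'
    · subst hdc
      exact ⟨0, by simp; omega, hPc'⟩
    · obtain ⟨i, hi, h4, h5⟩ := h3 d hd
      refine ⟨i, by simpa using hi, hPout i d ?_ ?_⟩
      · rw [Finset.mem_union]
        rintro (h | h)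
        · exact h4 h
        · exact h5 h
      · intro h
        exact hdc (sh_inj (h.trans hz')).2
  · by_cases hX : X (sh 0 c) = true
    · refine ⟨fre u, by simp, ?_⟩
      rw [vio_iff, evQ_fre (by rw [hu]; exact n_le_sq n) (by rw [hu]; exact hτ),
        hC.2.2 _ _ _ P X ⟨0, by omega, hPc⟩, if_pos hX, hPf _ (isFre_fre u)]
      simp only [decide_eq_false hne', decide_true]
      cases r <;> simp
    by_cases hX' : X (sh 0 c') = true
    · refine ⟨fre u', by simp, ?_⟩
      rw [vio_iff, evQ_fre (by rw [hu']; exact n_le_sq n) (by rw [hu']; exact hτ),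
        hC'.2.2 _ _ _ P X ⟨0, by omega, hPc'⟩, if_pos hX', hPf _ (isFre_fre u')]
      simp only [decide_eq_false hne'.symm, decide_true]
      cases r' <;> simp
    rw [Bool.not_eq_true] at hX hX'
    have ez : evQ k n τ a true low [] false P X z = false := by
      rw [hz, evQ_sh (by omega) hC.1.1, hX, ← hz, hPz]
      simp
    have ez' : evQ k n τ a true low [] false P X z' = true := by
      rw [hz', evQ_sh (by omega) hC'.1.1, hX', ← hz', hPz']
      simp
    have hr : resp M (evQ k n τ a true low [] false P X) z =
        resp M (evQ k n τ a true low [] false P X) z' := by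
      refine resp_eq hq (u := u) (u' := u') (v := !r) (v' := !r') ht hc
        (fun q h => (hlev u hu z (mem_Es.1 hzE).1).2 q h)
        (fun q h => (hlev u' hu' z' (mem_Es.1 hzE').1).2 q h)
        (fun q h hS _ => hPs q hS (Finset.mem_union_left _ h)) (fun q h hF => ?_)
        (fun q h hS _ => hPs q hS (Finset.mem_union_right _ h)) (fun q h hF => ?_)
      · rw [hPf q hF]
        have : q ≠ fre u' := by
          rintro rfl
          exact h1 h
        rw [decide_eq_false this]
        simp
      · rw [hPf q hF]
        have : q ≠ fre u := by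
          rintro rfl
          exact h2 h
        rw [decide_eq_false this]
        simp
    cases hv : resp M (evQ k n τ a true low [] false P X) z with
    | true =>
      refine ⟨z, by simp, ?_⟩
      rw [vio_iff, ez, hv]
      simp
    | false =>
      refine ⟨z', by simp, ?_⟩
      rw [vio_iff, ez', ← hr, hv]
      simp

end

end Pool.Agent.Helper5.BG
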